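import Mathlib
import Pool.Agent.Work.MP_ce8257_co.Graph

set_option autoImplicit false

open Finset

namespace Pool.Agent.Results.MP_ce8257_co.Oboudi

/-- Oboudi's conjecture. Let `G` be a finite simple graph without isolated vertices. If every
complex root of the domination polynomial `∑ k, d_k z ^ k` (where `d_k` is the number of
dominating sets of size `k`) is real, then `G` is star-like: every vertex is a leaf or is adjacent
to exactly one or exactly two leaves. -/
theorem result {V : Type} [Fintype V] [DecidableEq V] (G : SimpleGraph V) [DecidableRel G.Adj]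
    (hiso : ∀ v : V, ∃ w : V, G.Adj v w)
    (hreal : ∀ z : ℂ,
      ∑ k ∈ Finset.range (Fintype.card V + 1),
        ((Finset.univ.filter fun S : Finset V =>
          S.card = k ∧ ∀ v : V, v ∈ S ∨ ∃ u ∈ S, G.Adj v u).card : ℂ) * z ^ k = 0 →
      z.im = 0) :
    ∀ v : V, G.degree v = 1 ∨
      ((G.neighborFinset v).filter fun u => G.degree u = 1).card = 1 ∨
      ((G.neighborFinset v).filter fun u => G.degree u = 1).card = 2 := by
  apply Pool.Agent.Work.MP_ce8257_co.star_like G hiso
  intro z hz
  apply hreal z
  rw [← hz, ← Finset.sum_fiberwise_of_maps_to (s := Pool.Agent.Work.MP_ce8257_co.doms G)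
    (t := Finset.range (Fintype.card V + 1)) (g := Finset.card)]
  · apply Finset.sum_congr rfl
    intro k _
    rw [Finset.sum_congr rfl (g := fun _ => z ^ k), Finset.sum_const, nsmul_eq_mul]
    · congr 3
      ext S
      simp [Pool.Agent.Work.MP_ce8257_co.doms, and_comm]
    · intro S hS
      rw [(Finset.mem_filter.mp hS).2]
  · intro S _
    have := Finset.card_le_univ S
    exact Finset.mem_range.mpr (by omega)

end Pool.Agent.Results.MP_ce8257_co.Oboudi
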