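import Pool.Agent.Work.MP_ce8257_co.Hedge.Main

open Finset

namespace Pool.Agent.Results.MP_ce8257_co.StripGap

/-- Let `G` be a finite simple graph without isolated vertices. If every complex root of the
domination polynomial `∑ k, d_k z ^ k` (where `d_k` is the number of dominating sets of size `k`)
has imaginary part at most `1 / 10` in absolute value, then every root is real. -/
theorem result {V : Type} [Fintype V] [DecidableEq V] (G : SimpleGraph V) [DecidableRel G.Adj]
    (hiso : ∀ v : V, ∃ w : V, G.Adj v w)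
    (hstrip : ∀ z : ℂ,
      ∑ k ∈ Finset.range (Fintype.card V + 1),
        ((Finset.univ.filter fun S : Finset V =>
          S.card = k ∧ ∀ v : V, v ∈ S ∨ ∃ u ∈ S, G.Adj v u).card : ℂ) * z ^ k = 0 →
      |z.im| ≤ 1 / 10) :
    ∀ z : ℂ,
      ∑ k ∈ Finset.range (Fintype.card V + 1),
        ((Finset.univ.filter fun S : Finset V =>
          S.card = k ∧ ∀ v : V, v ∈ S ∨ ∃ u ∈ S, G.Adj v u).card : ℂ) * z ^ k = 0 →
      z.im = 0 := by
  have e : ∀ z : ℂ, ∑ k ∈ Finset.range (Fintype.card V + 1),
      ((Finset.univ.filter fun S : Finset V =>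
        S.card = k ∧ ∀ v : V, v ∈ S ∨ ∃ u ∈ S, G.Adj v u).card : ℂ) * z ^ k =
      ∑ S ∈ Pool.Agent.Work.MP_ce8257_co.doms G, z ^ S.card := fun z => by
    rw [← Finset.sum_fiberwise_of_maps_to (s := Pool.Agent.Work.MP_ce8257_co.doms G)
      (t := Finset.range (Fintype.card V + 1)) (g := Finset.card)
      fun S _ => Finset.mem_range.2 (Nat.lt_succ_of_le (Finset.card_le_univ S))]
    refine Finset.sum_congr rfl fun k _ => ?_
    rw [Finset.sum_congr rfl (g := fun _ => z ^ k) fun S hS => by rw [(Finset.mem_filter.1 hS).2],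
      Finset.sum_const, nsmul_eq_mul]
    congr 3
    ext S
    simp [Pool.Agent.Work.MP_ce8257_co.doms, and_comm]
  simp only [e] at hstrip ⊢
  exact Pool.Agent.Work.MP_ce8257_co.Hedge.strip G hiso hstrip

end Pool.Agent.Results.MP_ce8257_co.StripGap
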